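import Pool.Agent.Helper73.MI.Stmts

/-!
# Module QUA of MP_a2630c_MI: `F` is quadratic
-/

set_option autoImplicit false

open MeasureTheory Set Metric Real Filter Topology
open scoped RealInnerProductSpace ENNReal

universe w

namespace Pool.Agent.Helper62.MI

open Pool.Agent.Helper73.MI

section

variable {V : Type w} [NormedAddCommGroup V] [InnerProductSpace ℝ V] [FiniteDimensional ℝ V]

/-- Square root of a positive definite symmetric operator. -/
theorem exists_sqrt (T : V →L[ℝ] V) (hs : ∀ a b, inner ℝ (T a) b = (inner ℝ a (T b) : ℝ))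
    (hp : ∀ a, a ≠ 0 → (0 : ℝ) < inner ℝ (T a) a) :
    ∃ M : V ≃L[ℝ] V, ∀ w, ‖M w‖ ^ 2 = inner ℝ (T w) w := by
  have hsym : (T : V →ₗ[ℝ] V).IsSymmetric := fun a b => hs a b
  set n := Module.finrank ℝ V with hn
  set b := hsym.eigenvectorBasis hn.symm with hb
  set μ := hsym.eigenvalues hn.symm with hμ
  have hTb : ∀ i, T (b i) = μ i • b i := fun i => hsym.apply_eigenvectorBasis hn.symm i
  have hμpos : ∀ i, 0 < μ i := by
    intro i
    have h1 := hp (b i) (b.orthonormal.ne_zero i)
    rw [hTb, real_inner_smul_left, real_inner_self_eq_norm_sq, b.orthonormal.1 i] at h1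
    simpa using h1
  let M0 : V →ₗ[ℝ] V :=
    { toFun := fun w => ∑ i, (√(μ i) * inner ℝ (b i) w) • b i
      map_add' := by
        intro u u'
        rw [← Finset.sum_add_distrib]
        refine Finset.sum_congr rfl fun i _ => ?_
        rw [inner_add_right, mul_add, add_smul]
      map_smul' := by
        intro c u
        rw [RingHom.id_apply, Finset.smul_sum]
        refine Finset.sum_congr rfl fun i _ => ?_
        rw [inner_smul_right, smul_smul]
        congr 1
        ring }
  have hM0 : ∀ w, ‖M0 w‖ ^ 2 = inner ℝ (T w) w := by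
    intro w
    have h1 : ∀ j, inner ℝ (b j) (M0 w) = √(μ j) * inner ℝ (b j) w := fun j =>
      b.orthonormal.inner_right_fintype (fun i => √(μ i) * inner ℝ (b i) w) j
    rw [← b.sum_sq_norm_inner_right (M0 w), ← b.sum_inner_mul_inner (T w) w]
    refine Finset.sum_congr rfl fun i _ => ?_
    rw [h1, hs, hTb, inner_smul_right, Real.norm_eq_abs, sq_abs, mul_pow,
      Real.sq_sqrt (hμpos i).le, real_inner_comm w (b i)]
    ring
  have hinj : Function.Injective M0 := by
    rw [injective_iff_map_eq_zero]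
    intro u hu
    by_contra hne
    have h1 := hp u hne
    rw [← hM0, hu] at h1
    simp at h1
  refine ⟨(LinearEquiv.ofInjectiveEndo M0 hinj).toContinuousLinearEquiv, fun w => ?_⟩
  have h2 : (LinearEquiv.ofInjectiveEndo M0 hinj).toContinuousLinearEquiv w = M0 w := rfl
  rw [h2, hM0]

end

theorem qua (hfd : S_fd.{w}) : S_qua.{w} := by
  intro V _ _ _ _ _ D F Y ξ τ P lam vv Pi hMD hINV hconst
  obtain ⟨hF, hG⟩ := hfd hMD hINV
  set x0 := ξ 0 with hx0
  have hx0pos : 0 < x0 := hMD.xpos 0
  -- symmetry of `Pi v`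
  have hPis : ∀ v a b, inner ℝ (Pi v a) b = (inner ℝ a (Pi v b) : ℝ) := by
    intro v a b
    have h1 := hMD.Psymm v (Pi v a) (Pi v b)
    rw [hINV.PPi, hINV.PPi] at h1
    rw [h1, real_inner_comm]
  -- polarisation
  have hpol : ∀ v a b : V, 2 * inner ℝ v a * inner ℝ v b - 2 * ξ v * inner ℝ a (Pi v b) =
      -(2 * x0 * inner ℝ a (Pi 0 b)) := by
    intro v a b
    have h1 := hconst (a + b) v
    have h2 := hconst (a - b) v
    simp only [QQ, inner_zero_left, inner_add_right, inner_sub_right, map_add, map_sub,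
      inner_add_left, inner_sub_left] at h1 h2
    have h3 : inner ℝ (Pi v a) b = (inner ℝ a (Pi v b) : ℝ) := hPis v a b
    have h4 : inner ℝ (Pi v b) a = (inner ℝ a (Pi v b) : ℝ) := real_inner_comm _ _
    have h5 : inner ℝ (Pi 0 a) b = (inner ℝ a (Pi 0 b) : ℝ) := hPis 0 a b
    have h6 : inner ℝ (Pi 0 b) a = (inner ℝ a (Pi 0 b) : ℝ) := real_inner_comm _ _
    rw [h3, h4, h5, h6] at h1 h2
    rw [← hx0] at h1 h2
    linarith
  set y0 := Y 0 with hy0
  have hy0D : y0 ∈ D := hMD.Ymem 0
  -- the gradient is affine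
  have hgrad : ∀ a, ∀ y ∈ D, -2 * ξ (vv y) * inner ℝ (vv y) a =
      -(2 * x0 * inner ℝ a (Pi 0 (y - y0))) := by
    intro a
    have hd : ∀ y ∈ D, HasFDerivAt (fun y => -2 * ξ (vv y) * inner ℝ (vv y) a +
        2 * x0 * inner ℝ a (Pi 0 (y - y0))) (0 : V →L[ℝ] ℝ) y := by
      intro y hy
      obtain ⟨v, hv⟩ := hMD.Ysurj y hy
      have h1 := hG a v
      have h2 : HasFDerivAt (fun y => 2 * x0 * inner ℝ a (Pi 0 (y - y0)))
          ((2 * x0) • (innerSL ℝ a).comp (Pi 0)) (Y v) := by
        have h3 : HasFDerivAt (fun y => (innerSL ℝ a).comp (Pi 0) (y - y0))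
            ((innerSL ℝ a).comp (Pi 0)) (Y v) := by
          have := ((innerSL ℝ a).comp (Pi 0)).hasFDerivAt.comp (Y v)
            ((hasFDerivAt_id (Y v)).sub_const y0)
          simpa [Function.comp_def] using this
        exact h3.const_mul (2 * x0)
      have h4 := h1.add h2
      rw [← hv]
      refine h4.congr_fderiv ?_
      ext b
      simp only [add_apply, sub_apply,
        smul_apply, ContinuousLinearMap.comp_apply, innerSL_apply_apply,
        smul_eq_mul, zero_apply]
      have := hpol v a b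
      linarith
    have hc : ∀ y ∈ D, (-2 * ξ (vv y) * inner ℝ (vv y) a +
        2 * x0 * inner ℝ a (Pi 0 (y - y0))) = 0 := by
      intro y hy
      have h1 := hMD.Dconv.is_const_of_fderivWithin_eq_zero (𝕜 := ℝ)
        (f := fun y => -2 * ξ (vv y) * inner ℝ (vv y) a + 2 * x0 * inner ℝ a (Pi 0 (y - y0)))
        (fun z hz => (hd z hz).differentiableAt.differentiableWithinAt)
        (fun z hz => by
          rw [fderivWithin_of_isOpen hMD.Dopen hz]
          exact (hd z hz).fderiv) hy hy0D
      rw [h1]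
      have h2 : vv y0 = 0 := hINV.left 0
      simp [h2]
    intro y hy
    have := hc y hy
    linarith
  -- `F` is quadratic on `D`
  have hquad : ∀ y ∈ D, F y = x0 ^ 2 - x0 * inner ℝ (Pi 0 (y - y0)) (y - y0) := by
    have hd : ∀ y ∈ D, HasFDerivAt (fun y => F y + x0 * inner ℝ (Pi 0 (y - y0)) (y - y0))
        (0 : V →L[ℝ] ℝ) y := by
      intro y hy
      obtain ⟨v, hv⟩ := hMD.Ysurj y hy
      have h1 := hF v
      have hsub : HasFDerivAt (fun y => y - y0) (ContinuousLinearMap.id ℝ V) (Y v) :=
        (hasFDerivAt_id (Y v)).sub_const y0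
      have h3 : HasFDerivAt (fun y => Pi 0 (y - y0)) (Pi 0) (Y v) := by
        have := (Pi 0).hasFDerivAt.comp (Y v) hsub
        simpa [Function.comp_def] using this
      have h4 := (h3.inner ℝ hsub).const_mul x0
      have h5 := h1.add h4
      rw [← hv]
      refine h5.congr_fderiv ?_
      ext b
      have h6 := hgrad b y hy
      have h7 : vv y = v := by rw [← hv, hINV.left]
      rw [h7] at h6
      simp only [add_apply, smul_apply,
        ContinuousLinearMap.comp_apply, innerSL_apply_apply, smul_eq_mul,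
        zero_apply, ContinuousLinearMap.prod_apply,
        ContinuousLinearMap.id_apply, fderivInnerCLM_apply]
      have h8 : inner ℝ (Pi 0 b) (y - y0) = (inner ℝ b (Pi 0 (y - y0)) : ℝ) := hPis 0 _ _
      have h9 : inner ℝ (Pi 0 (y - y0)) b = (inner ℝ b (Pi 0 (y - y0)) : ℝ) :=
        real_inner_comm _ _
      rw [hv, h8, h9]
      linarith
    intro y hy
    have h1 := hMD.Dconv.is_const_of_fderivWithin_eq_zero (𝕜 := ℝ)
      (f := fun y => F y + x0 * inner ℝ (Pi 0 (y - y0)) (y - y0))
      (fun z hz => (hd z hz).differentiableAt.differentiableWithinAt)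
      (fun z hz => by
        rw [fderivWithin_of_isOpen hMD.Dopen hz]
        exact (hd z hz).fderiv) hy hy0D
    simp only [sub_self, inner_zero_right, mul_zero, add_zero] at h1
    rw [hy0, hMD.FY] at h1
    rw [← hy0] at h1
    linarith
  -- positivity
  have hpos : ∀ a, a ≠ 0 → (0 : ℝ) < inner ℝ ((x0 • Pi 0) a) a := by
    intro a ha
    obtain ⟨c, hc, hlow⟩ := hMD.Plow
    have h1 := hlow 0 (Pi 0 a)
    rw [hINV.PPi] at h1
    have hnn : nn (0 : V) = 1 := by simp [nn]
    rw [hnn] at h1
    have h2 : Pi 0 a ≠ 0 := by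
      intro h
      apply ha
      have := hINV.PPi 0 a
      rw [h, map_zero] at this
      exact this.symm
    have h3 : 0 < ‖Pi 0 a‖ := norm_pos_iff.2 h2
    have h4 : (0 : ℝ) < inner ℝ (Pi 0 a) a := by
      have : 0 < c * ‖Pi 0 a‖ ^ 2 := by positivity
      linarith
    rw [smul_apply, real_inner_smul_left]
    positivity
  obtain ⟨M, hM⟩ := exists_sqrt (x0 • Pi 0) (by
    intro a b
    rw [smul_apply, smul_apply, real_inner_smul_left,
      inner_smul_right, hPis]) hpos
  have hFM : ∀ y ∈ D, F y = x0 ^ 2 - ‖M (y - y0)‖ ^ 2 := by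
    intro y hy
    rw [hM, hquad y hy, smul_apply, real_inner_smul_left]
  refine ⟨M, y0, x0 ^ 2, by positivity, fun y => ⟨fun hy => ?_, fun hy => ?_⟩, hFM⟩
  · have h1 := hMD.Fpos y hy
    rw [hFM y hy] at h1
    linarith
  · -- connectedness
    have hcl : ∀ z ∈ closure D, F z = x0 ^ 2 - ‖M (z - y0)‖ ^ 2 := by
      have hcl0 : IsClosed {z : V | F z = x0 ^ 2 - ‖M (z - y0)‖ ^ 2} := by
        apply isClosed_eq hMD.Fcont
        have : Continuous (fun z : V => M (z - y0)) := M.continuous.comp (by fun_prop)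
        fun_prop
      exact fun z hz => closure_minimal (fun z hz => hFM z hz) hcl0 hz
    have hE : IsPreconnected {z : V | ‖M (z - y0)‖ ^ 2 < x0 ^ 2} := by
      have h1 : {z : V | ‖M (z - y0)‖ ^ 2 < x0 ^ 2} =
          (fun z => M.symm z + y0) '' ball (0 : V) x0 := by
        ext z
        simp only [Set.mem_ofPred_eq, mem_image, mem_ball, dist_zero_right]
        constructor
        · intro h
          refine ⟨M (z - y0), lt_of_pow_lt_pow_left₀ 2 hx0pos.le h, ?_⟩
          rw [ContinuousLinearEquiv.symm_apply_apply]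
          abel
        · rintro ⟨u, hu, rfl⟩
          rw [add_sub_cancel_right, ContinuousLinearEquiv.apply_symm_apply]
          exact pow_lt_pow_left₀ hu (norm_nonneg _) two_ne_zero
      rw [h1]
      apply (convex_ball (0 : V) x0).isPreconnected.image
      have : Continuous (fun z : V => M.symm z) := M.symm.continuous
      exact (this.add continuous_const).continuousOn
    have h2 := hE.subset_of_closure_inter_subset hMD.Dopen
      ⟨y0, by
        change ‖M (y0 - y0)‖ ^ 2 < x0 ^ 2
        rw [sub_self, map_zero, norm_zero, zero_pow two_ne_zero]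
        positivity, hy0D⟩ (by
        rintro z ⟨hz1, hz2⟩
        by_contra hz3
        have h3 := hMD.Fzero z hz3
        rw [hcl z hz1] at h3
        change ‖M (z - y0)‖ ^ 2 < x0 ^ 2 at hz2
        linarith)
    exact h2 hy

end Pool.Agent.Helper62.MI
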